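import Pool.Agent.H34E.Rec

/-!
No arrow leads from a sharp functional without form of rank two to a functional of a block of
type `T` (helper67, note 3216, at set level).
-/

set_option autoImplicit false
set_option linter.unusedSectionVars false
set_option linter.unusedVariables false

namespace Pool.Agent.H34E

open QS
open Pool.Agent.Helper58.PLine (QData)
open Pool.Agent.ETCP
open Pool.Agent.ETSC
open Pool.Agent.H34C
open Pool.Agent.H34D

variable {V Q : Type} [AddCommGroup V] [Module (ZMod 2) V] {S : QData V Q}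
  {E : Submodule (ZMod 2) (Dl V)} {η : Dl V}

/-- `V_d + Y = V` for `d ∈ Y` -/
theorem ex_kill [Finite V] (hE : Per S E) {d : V} (hd : d ∈ An E) (v : V) :
    ∃ w, C S d w ∧ w + v ∈ An E := by
  have h : KK S E d v := by
    intro b hb
    by_cases h0 : b = 0
    · rw [h0]
      rfl
    · exact absurd hb.2 (hE.ne_of_mem hb.1 h0 hd)
  exact h.ex

/-- slots in `Y` -/
theorem slotY [Finite V] (he : S.e = 0) (T : TB S E η) {x a w0 v0 : V} {e : Q} (hx : S.q x w0 = e)
    (ha : a ∈ An E) (hav : S.q a v0 = e) (hn : x ∉ An E) : ∃ y ∈ An E, S.q x y = e := by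
  have hE := T.per
  obtain ⟨u, h1, h2⟩ := S.link x w0 a v0 (hx.trans hav.symm)
  have c1 : C S (x + a) u := q_eq'_iff.1 (by rw [← h1, hx, ← h2, hav])
  have h1' : S.q x u = e := by rw [← h1, hx]
  have h2' : S.q a u = e := by rw [← h2, hav]
  have hηa : η a = 0 := mem_An.1 ha η T.mem
  rcases z2 (η x) with hη | hη
  · -- `x` in the kernel of `η`
    have hxa : x + a ∉ An E := by
      intro hc
      apply hn
      have h3 := (An E).add_mem hc ha
      rw [add_self'] at h3
      exact h3
    have h3 : η ∈ Uz S E (x + a) := T.ins (by rw [map_add, hη, hηa, add_zero]) hxa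
    have h4 : η u = 0 := h3.2 u c1
    obtain ⟨t0, ht0⟩ := ex_one T.ne
    obtain ⟨t, ht, htt⟩ := ex_kill hE ha t0
    have h5 : η t = 1 := by
      have h6 := mem_An.1 htt η T.mem
      rw [map_add, ht0] at h6
      have f : ∀ a : ZMod 2, a + 1 = 0 → a = 1 := by decide
      exact f _ h6
    have h6 : S.q a (u + t) = e := by
      rw [← h2']
      apply q_eq_iff.2
      exact ht.of_eq rfl (by
        rw [add_comm u t, add_assoc, ZModModule.add_self, add_zero])
    obtain ⟨r, r1, r2⟩ := S.link x u (u + t) a (by rw [h1', S.symm, h6])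
    have c2 : C S (u + t) (a + r) := q_eq_iff.1 r2
    have h7 : η (u + t) = 1 := by rw [map_add, h4, h5, zero_add]
    have h8 : ∀ μ ∈ E, μ r = μ (u + t) * η r := by
      intro μ hμ
      have h9 := T.out h7 c2 hμ
      rw [map_add μ a r, map_add η a r, mem_An.1 ha μ hμ, hηa, zero_add, zero_add] at h9
      exact h9
    rcases z2 (η r) with hr | hr
    · refine ⟨r, mem_An.2 fun μ hμ => by rw [h8 μ hμ, hr, mul_zero], ?_⟩
      rw [← r1, h1']
    · exfalso
      have c3 : C S x (u + r) := q_eq_iff.1 r1
      have h9 := (T.ins hη hn).2 _ c3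
      rw [map_add, h4, hr, zero_add] at h9
      exact one_ne_zero h9
  · have h3 : ∀ μ ∈ E, μ u = μ x * η u := by
      intro μ hμ
      have h4 := T.out (z := x + a) (by rw [map_add, hη, hηa, add_zero]) c1 hμ
      rw [map_add, mem_An.1 ha μ hμ, add_zero] at h4
      exact h4
    rcases z2 (η u) with hu | hu
    · refine ⟨u, mem_An.2 fun μ hμ => by rw [h3 μ hμ, hu, mul_zero], h1'⟩
    · refine ⟨u + x, mem_An.2 fun μ hμ => ?_, ?_⟩
      · rw [map_add, h3 μ hμ, hu, mul_one, ZModModule.add_self]
      · rw [← h1']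
        apply q_eq_iff.2
        exact (C.self he x).of_eq rfl (by
          rw [add_comm u x, add_assoc, ZModModule.add_self, add_zero])

section sums

variable [Fintype V]

/-- the sums depend only on the coset -/
theorem Zc_coset (q : Q) (α l : Dl V) {z z' : V} (h : z + z' ∈ An E) :
    Zc S E q α l z = Zc S E q α l z' := by
  classical
  unfold Zc
  apply Finset.sum_congr rfl
  intro a _
  have e : a + z ∈ An E ↔ a + z' ∈ An E := by
    have e1 : a + z + (z + z') = a + z' := by
      rw [add_assoc, ← add_assoc z z z', ZModModule.add_self, zero_add]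
    constructor
    · intro h'
      rw [← e1]
      exact (An E).add_mem h' h
    · intro h'
      rw [← e1] at h'
      have h'' := (An E).add_mem h' h
      rw [add_self'] at h''
      exact h''
  by_cases h1 : a + z ∈ An E
  · rw [if_pos h1, if_pos (e.1 h1)]
  · rw [if_neg h1, if_neg (fun h' => h1 (e.2 h'))]

open Classical in
/-- the Fourier transform of the class sums -/
noncomputable def Th (S : QData V Q) (E : Submodule (ZMod 2) (Dl V)) [Fintype (Dl V)] (q : Q)
    (l : Dl V) (v : V) : ℤ :=
  ∑ β : Dl V, if β ∈ E then sg (β v) * Zc S E q 0 (l + β) 0 else 0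

open Classical in
theorem Th_eq [Fintype (Dl V)] (he : S.e = 0) (hE : Per S E) {q : Q} (hq : NulE S E q) (l : Dl V)
    (v : V) : nU S E v * ∑ β : Dl V, (if β ∈ E then sg (β v) * Zc S E q 0 (l + β) v else 0) =
      nU S E v * Th S E q l v := by
  rw [Finset.mul_sum]
  have e1 : ∀ β : Dl V, nU S E v * (if β ∈ E then sg (β v) * Zc S E q 0 (l + β) v else 0) =
      ∑ b : Dl V, if b ∈ Uz S E v then
        (if β ∈ E then sg (β v) * Zc S E q 0 (l + β + b) 0 else 0) else 0 := by
    intro β
    by_cases hβ : β ∈ E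
    · rw [if_pos hβ]
      have id := Zc_id hE hq (Tw_zero q) (l + β) v
      have e : nU S E v * (sg (β v) * Zc S E q 0 (l + β) v) =
          sg (β v) * (nU S E v * Zc S E q 0 (l + β) v) := by ring
      rw [e, id, Finset.mul_sum]
      apply Finset.sum_congr rfl
      intro b _
      by_cases hb : b ∈ Uz S E v
      · rw [if_pos hb, if_pos hb, if_pos hβ]
      · rw [if_neg hb, if_neg hb, mul_zero]
    · rw [if_neg hβ, mul_zero]
      symm
      apply Finset.sum_eq_zero
      intro b _
      rw [if_neg hβ]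
      split_ifs <;> rfl
  rw [Finset.sum_congr rfl fun β _ => e1 β, Finset.sum_comm, nU, Finset.sum_mul]
  apply Finset.sum_congr rfl
  intro b _
  by_cases hb : b ∈ Uz S E v
  · rw [if_pos hb, one_mul, Th, ← Equiv.sum_comp (Equiv.addRight b)]
    apply Finset.sum_congr rfl
    intro β _
    rw [if_pos hb]
    show (if β + b ∈ E then sg ((β + b) v) * Zc S E q 0 (l + (β + b) + b) 0 else 0) =
      if β ∈ E then sg (β v) * Zc S E q 0 (l + β) 0 else 0
    have hb0 : b v = 0 := Uz_ker he hb
    have e2 : β + b ∈ E ↔ β ∈ E := by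
      constructor
      · intro h
        have h' := E.add_mem h hb.1
        rw [add_self'] at h'
        exact h'
      · intro h
        exact E.add_mem h hb.1
    have e3 : l + (β + b) + b = l + β := by
      rw [add_assoc, add_self']
    rw [e3]
    by_cases hβ : β ∈ E
    · rw [if_pos (e2.2 hβ), if_pos hβ, LinearMap.add_apply, hb0, add_zero]
    · rw [if_neg (fun h => hβ (e2.1 h)), if_neg hβ]
  · rw [if_neg hb, zero_mul]
    apply Finset.sum_eq_zero
    intro β _
    exact if_neg hb

open Classical in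
theorem Th_eq' [Fintype (Dl V)] (he : S.e = 0) (hE : Per S E) {q : Q} (hq : NulE S E q) (l : Dl V)
    (v : V) : ∑ β : Dl V, (if β ∈ E then sg (β v) * Zc S E q 0 (l + β) v else 0) =
      Th S E q l v :=
  mul_left_cancel₀ (nU_pos (S := S) (E := E) v).ne' (Th_eq he hE hq l v)

open Classical in
/-- Fourier inversion -/
theorem Th_inv [Fintype (Dl V)] (q : Q) (l : Dl V) {β : Dl V} (hβ : β ∈ E) :
    ∑ v : V, sg (β v) * Th S E q l v = (Fintype.card V : ℤ) * Zc S E q 0 (l + β) 0 := by
  have e1 : ∀ v : V, sg (β v) * Th S E q l v = ∑ γ : Dl V,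
      if γ ∈ E then sg ((β + γ) v) * Zc S E q 0 (l + γ) 0 else 0 := by
    intro v
    rw [Th, Finset.mul_sum]
    apply Finset.sum_congr rfl
    intro γ _
    by_cases hγ : γ ∈ E
    · rw [if_pos hγ, if_pos hγ, LinearMap.add_apply, sg_add]
      ring
    · rw [if_neg hγ, if_neg hγ, mul_zero]
  rw [Finset.sum_congr rfl fun v _ => e1 v, Finset.sum_comm, Finset.sum_eq_single β]
  · rw [Finset.sum_congr rfl fun v _ => if_pos hβ, ← Finset.sum_mul, sum_sg,
      if_pos (ZModModule.add_self β)]
  · intro γ _ hγ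
    by_cases h : γ ∈ E
    · rw [Finset.sum_congr rfl fun v _ => if_pos h, ← Finset.sum_mul, sum_sg,
        if_neg (fun h' => hγ (eo h').symm), zero_mul]
    · rw [Finset.sum_congr rfl fun v _ => if_neg h, Finset.sum_const_zero]
  · intro h
    exact absurd (Finset.mem_univ _) h

end sums

/-- **two colours give all colours** -/
theorem two_all [Finite V] (he : S.e = 0) (T : TB S E η) {l b0 b1 : Dl V} (h0 : BB S E l b0)
    (h1 : BB S E l b1) (hne : b0 ≠ b1) {β : Dl V} (hβ : β ∈ E) : BB S E l β := by
  classical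
  have := Fintype.ofFinite V
  have hf := finite_Dl (V := V)
  have := Fintype.ofFinite (Dl V)
  have hE := T.per
  obtain ⟨z, hηz, hz⟩ := ex_11 (f := η) (g := b0 + b1) T.ne (fun h => hne (eo h))
  -- elements of the coset
  have hmeet : ∀ {b : Dl V}, BB S E l b → ∃ x, PP S (l + b) x ∧ x + z ∈ An E := by
    intro b hb
    apply (meet_iff hE (l + b) z).2
    refine ⟨0, Submodule.zero_mem _, E.zero_mem, ?_⟩
    obtain ⟨h, hh, hP⟩ := hb.2
    exact ⟨h, hh, by rw [add_zero]; exact hP⟩
  obtain ⟨x0, p0, c0⟩ := hmeet h0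
  obtain ⟨x1, p1, c1⟩ := hmeet h1
  have hd : x0 + x1 ∈ An E := by
    have h := (An E).add_mem c0 c1
    rw [add_add_add_comm, ZModModule.add_self, add_zero] at h
    exact h
  have v0 : b0 x0 = b0 z := by
    have h := mem_An.1 c0 b0 h0.1
    rw [map_add] at h
    exact z2add h
  have v1 : b1 x1 = b1 z := by
    have h := mem_An.1 c1 b1 h1.1
    rw [map_add] at h
    exact z2add h
  have l0 : l x0 = b0 z := by
    have h := PP_ker he p0
    rw [LinearMap.add_apply, v0] at h
    exact z2add h
  have l1 : l x1 = b1 z := by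
    have h := PP_ker he p1
    rw [LinearMap.add_apply, v1] at h
    exact z2add h
  rw [LinearMap.add_apply] at hz
  have hld : l (x0 + x1) = 1 := by rw [map_add, l0, l1, hz]
  obtain ⟨y0, hy0, cy⟩ := ex_kill hE hd z
  set k := y0 + x0 with hk
  set k' := y0 + x1 with hk'
  have hkE : k ∈ An E := by
    have h := (An E).add_mem cy c0
    rw [add_add_add_comm, ZModModule.add_self, add_zero] at h
    exact h
  have hkE' : k' ∈ An E := by
    have h := (An E).add_mem cy c1
    rw [add_add_add_comm, ZModModule.add_self, add_zero] at h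
    exact h
  have hkk : l k' = l k + 1 := by
    have e : l k + l k' = 1 := by
      rw [hk, hk', map_add, map_add, add_add_add_comm, ZModModule.add_self, zero_add, ← map_add,
        hld]
    have f : ∀ a b : ZMod 2, a + b = 1 → b = a + 1 := by decide
    exact f _ _ e
  set e : Q := S.q x0 k with hedef
  have e1 : S.q x1 k' = e := by
    have a1 : S.q x0 k = S.q x0 y0 := q_eq_iff.2 ((C.self he x0).of_eq rfl (by
      rw [hk, add_comm y0 x0, add_assoc, ZModModule.add_self, add_zero]))
    have a2 : S.q x1 k' = S.q x1 y0 := q_eq_iff.2 ((C.self he x1).of_eq rfl (by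
      rw [hk', add_comm y0 x1, add_assoc, ZModModule.add_self, add_zero]))
    have a3 : S.q x0 y0 = S.q x1 y0 := q_eq'_iff.2 hy0
    rw [a2, ← a3, ← a1]
  have hnul : NulE S E e := ⟨k, hkE, x0, S.symm _ _⟩
  -- signs
  have hcol : ∀ {γ : Dl V}, γ ∈ E → (γ z = b0 z → PP S (l + γ) x0) ∧
      (γ z = b1 z → PP S (l + γ) x1) := by
    intro γ hγ
    constructor
    · intro h
      have h2 : PP S (γ + b0) x0 := (hE.coset (E.add_mem hγ h0.1) c0).2
        (T.uz_out hηz (E.add_mem hγ h0.1) (by
          rw [LinearMap.add_apply, h, ZModModule.add_self])).2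
      have h3 := PP_add_form p0 h2
      have e3 : l + b0 + (γ + b0) = l + γ := by
        rw [add_comm γ b0, ← add_assoc, add_self']
      rw [e3] at h3
      exact h3
    · intro h
      have h2 : PP S (γ + b1) x1 := (hE.coset (E.add_mem hγ h1.1) c1).2
        (T.uz_out hηz (E.add_mem hγ h1.1) (by
          rw [LinearMap.add_apply, h, ZModModule.add_self])).2
      have h3 := PP_add_form p1 h2
      have e3 : l + b1 + (γ + b1) = l + γ := by
        rw [add_comm γ b1, ← add_assoc, add_self']
      rw [e3] at h3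
      exact h3
  have hval : ∀ γ : Dl V, γ z = b0 z ∨ γ z = b1 z := by
    intro γ
    have f : ∀ a b c : ZMod 2, a + b = 1 → c = a ∨ c = b := by decide
    exact f _ _ _ hz
  -- the sign of `e` at `l + γ`
  have hsgn : ∀ {γ : Dl V}, γ ∈ E → ∀ a v, PP S (l + γ) a → S.q a v = e →
      (l + γ) v = l k + (γ z + b0 z) := by
    intro γ hγ a v ha hv
    have hcoh : ∀ {x w : V}, PP S (l + γ) x → S.q x w = e → (l + γ) v = (l + γ) w := by
      intro x w hx hw
      obtain ⟨u, u1, u2⟩ := S.link a v x w (hv.trans hw.symm)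
      have a1 := ha _ (q_eq_iff.1 u1)
      have a2 := hx _ (q_eq_iff.1 u2)
      rw [map_add] at a1 a2
      rw [z2add a1, z2add a2]
    rcases hval γ with h | h
    · rw [hcoh ((hcol hγ).1 h) hedef.symm, LinearMap.add_apply, mem_An.1 hkE γ hγ, h,
        ZModModule.add_self]
    · rw [hcoh ((hcol hγ).2 h) e1, LinearMap.add_apply, mem_An.1 hkE' γ hγ, hkk, h, add_zero,
        add_comm (b1 z), hz]
  -- no elements outside the coset of `z`
  have hno : ∀ {v : V}, v ∉ An E → v + z ∉ An E → ∀ {γ : Dl V}, γ ∈ E →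
      Zc S E e 0 (l + γ) v = 0 := by
    intro v hv hvz γ hγ
    by_contra hc
    obtain ⟨x, hx, ⟨w, hw⟩, hxv⟩ := Zc_ne hc
    have hxY : x ∉ An E := by
      intro hx'
      apply hv
      have h := (An E).add_mem hx' hxv
      rw [← add_assoc, ZModModule.add_self, zero_add] at h
      exact h
    obtain ⟨y, hy, hxy⟩ := slotY he T hw hkE ((S.symm k x0).trans hedef.symm) hxY
    obtain ⟨μ, hμ, hμv, hμz⟩ : ∃ μ ∈ E, PP S μ x ∧ μ z = 1 := by
      rcases z2 (η v) with hηv | hηv
      · exact ⟨η, T.mem, (hE.coset T.mem hxv).2 (T.ins hηv hv).2, hηz⟩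
      · rw [mem_An] at hvz
        push Not at hvz
        obtain ⟨μ, hμ, h3⟩ := hvz
        have h3' := z2ne h3
        rw [map_add] at h3'
        rcases z2 (μ v) with h4 | h4
        · exact ⟨μ, hμ, (hE.coset hμ hxv).2 (T.uz_out hηv hμ h4).2, by
            rw [h4, zero_add] at h3'
            exact h3'⟩
        · have h5 : (μ + η) v = 0 := by rw [LinearMap.add_apply, h4, hηv]; decide
          have h6 := E.add_mem hμ T.mem
          refine ⟨μ + η, h6, (hE.coset h6 hxv).2 (T.uz_out hηv h6 h5).2, ?_⟩
          rw [h4] at h3'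
          rw [LinearMap.add_apply, hηz]
          have f : ∀ a : ZMod 2, 1 + a = 1 → a + 1 = 1 := by decide
          exact f _ h3'
    have s1 := hsgn hγ x y hx hxy
    have hx2 : PP S (l + (γ + μ)) x := by
      rw [← add_assoc]
      exact PP_add_form hx hμv
    have s2 := hsgn (E.add_mem hγ hμ) x y hx2 hxy
    rw [LinearMap.add_apply, mem_An.1 hy γ hγ, add_zero] at s1
    rw [LinearMap.add_apply, mem_An.1 hy _ (E.add_mem hγ hμ), add_zero, s1,
      LinearMap.add_apply, hμz] at s2
    have f : ∀ a b c : ZMod 2, a + (b + c) ≠ a + (b + 1 + c) := by decide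
    exact f _ _ _ s2
  -- the transform vanishes outside the coset of `z`
  have hTh1 : ∀ v, v ∉ An E → v + z ∉ An E → Th S E e l v = 0 := by
    intro v hv hvz
    rw [← Th_eq' he hE hnul l v]
    apply Finset.sum_eq_zero
    intro γ _
    by_cases hγ : γ ∈ E
    · rw [if_pos hγ, hno hv hvz hγ, mul_zero]
    · rw [if_neg hγ]
  have hTh0 : ∀ v, v ∈ An E → Th S E e l v = 0 := by
    intro v hv
    -- another odd class
    obtain ⟨θ, hθ, hθ0, hθη⟩ := T.two
    obtain ⟨w, hw1, hw2⟩ := ex_10 (f := θ) (g := η) hθ0 (Ne.symm hθη)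
    have hcY : z + w ∉ An E := by
      intro h
      have h' := mem_An.1 h η T.mem
      rw [map_add, hηz, hw2, add_zero] at h'
      exact one_ne_zero h'
    have hcz : z + w + z ∉ An E := by
      intro h
      have h' := mem_An.1 h θ hθ
      have e5 : z + w + z = w := by
        rw [add_comm z w, add_self']
      rw [e5, hw1] at h'
      exact one_ne_zero h'
    have e6 : nU S E (z + w) * Th S E e l v = 0 := by
      have e7 : Th S E e l v = ∑ β : Dl V, if β ∈ E then Zc S E e 0 (l + β) 0 else 0 := by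
        unfold Th
        apply Finset.sum_congr rfl
        intro β _
        by_cases hβ : β ∈ E
        · rw [if_pos hβ, if_pos hβ, mem_An.1 hv β hβ, sg_zero, one_mul]
        · rw [if_neg hβ, if_neg hβ]
      have e8 : ∀ γ : Dl V, (if γ ∈ E then nU S E (z + w) * Zc S E e 0 (l + γ) (z + w) else 0) =
          ∑ b : Dl V, if b ∈ Uz S E (z + w) then
            (if γ ∈ E then Zc S E e 0 (l + γ + b) 0 else 0) else 0 := by
        intro γ
        by_cases hγ : γ ∈ E
        · rw [if_pos hγ, Zc_id hE hnul (Tw_zero e) (l + γ) (z + w)]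
          apply Finset.sum_congr rfl
          intro b _
          rw [if_pos hγ]
        · rw [if_neg hγ]
          symm
          apply Finset.sum_eq_zero
          intro b _
          rw [if_neg hγ]
          split_ifs <;> rfl
      have e9 : ∑ γ : Dl V, (if γ ∈ E then nU S E (z + w) * Zc S E e 0 (l + γ) (z + w) else 0)
          = 0 := by
        apply Finset.sum_eq_zero
        intro γ _
        by_cases hγ : γ ∈ E
        · rw [if_pos hγ, hno hcY hcz hγ, mul_zero]
        · rw [if_neg hγ]
      rw [Finset.sum_congr rfl fun γ _ => e8 γ, Finset.sum_comm] at e9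
      rw [← e9, nU, Finset.sum_mul]
      apply Finset.sum_congr rfl
      intro b _
      by_cases hb : b ∈ Uz S E (z + w)
      · rw [if_pos hb, one_mul, e7, ← Equiv.sum_comp (Equiv.addRight b)]
        apply Finset.sum_congr rfl
        intro γ _
        rw [if_pos hb]
        show (if γ + b ∈ E then Zc S E e 0 (l + (γ + b)) 0 else 0) =
          if γ ∈ E then Zc S E e 0 (l + γ + b) 0 else 0
        rw [← add_assoc]
        by_cases hγ : γ ∈ E
        · rw [if_pos hγ, if_pos (E.add_mem hγ hb.1)]
        · rw [if_neg hγ, if_neg (fun h => hγ (by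
            have h' := E.add_mem h hb.1
            rw [add_self'] at h'
            exact h'))]
      · rw [if_neg hb, zero_mul]
        symm
        apply Finset.sum_eq_zero
        intro γ _
        exact if_neg hb
    rcases mul_eq_zero.1 e6 with h | h
    · exact absurd h (nU_pos (S := S) (E := E) (z + w)).ne'
    · exact h
  -- and it is not zero at `z`
  set s : ℤ := sg (l k + b0 z) with hs
  have hss : s * s = 1 := sg_mul_self _
  have hTz : 0 < s * Th S E e l z := by
    rw [← Th_eq' he hE hnul l z, Finset.mul_sum]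
    have hterm : ∀ γ : Dl V, γ ∈ E → s * (sg (γ z) * Zc S E e 0 (l + γ) z) =
        sg (l k + (γ z + b0 z)) * Zc S E e 0 (l + γ) z := by
      intro γ _
      have e5 : l k + (γ z + b0 z) = l k + b0 z + γ z := by rw [add_comm (γ z), ← add_assoc]
      rw [e5, sg_add (l k + b0 z), hs]
      ring
    apply Finset.sum_pos'
    · intro γ _
      by_cases hγ : γ ∈ E
      · rw [if_pos hγ, hterm γ hγ]
        by_cases hZ : Zc S E e 0 (l + γ) z = 0
        · rw [hZ, mul_zero]
        · obtain ⟨x, hx, ⟨w, hw⟩, hxv⟩ := Zc_ne hZ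
          have h5 := Zc_sg (E := E) hx hw z
          rw [hsgn hγ x w hx hw] at h5
          exact h5
      · rw [if_neg hγ, mul_zero]
    · refine ⟨b0, Finset.mem_univ _, ?_⟩
      rw [if_pos h0.1, hterm b0 h0.1]
      have h5 := Zc_sg_pos (q := e) p0 hedef.symm c0
      rw [hsgn h0.1 x0 k p0 hedef.symm] at h5
      exact h5
  have hTc : ∀ v, v + z ∈ An E → Th S E e l v = Th S E e l z := by
    intro v hv
    unfold Th
    apply Finset.sum_congr rfl
    intro γ _
    by_cases hγ : γ ∈ E
    · have e5 : γ v = γ z := by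
        have h := mem_An.1 hv γ hγ
        rw [map_add] at h
        exact z2add h
      rw [if_pos hγ, if_pos hγ, e5]
    · rw [if_neg hγ, if_neg hγ]
  -- inversion
  have hinv := Th_inv (S := S) (E := E) e l hβ
  have hne0 : Zc S E e 0 (l + β) 0 ≠ 0 := by
    intro hZ
    rw [hZ, mul_zero] at hinv
    have h5 : 0 < ∑ v : V, (s * sg (β z)) * (sg (β v) * Th S E e l v) := by
      apply Finset.sum_pos'
      · intro v _
        by_cases hv : v + z ∈ An E
        · have e5 : β v = β z := by
            have h := mem_An.1 hv β hβ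
            rw [map_add] at h
            exact z2add h
          rw [hTc v hv, e5]
          have e6 : s * sg (β z) * (sg (β z) * Th S E e l z) =
              sg (β z) * sg (β z) * (s * Th S E e l z) := by ring
          rw [e6, sg_mul_self, one_mul]
          exact hTz.le
        · have h6 : Th S E e l v = 0 := by
            by_cases hvY : v ∈ An E
            · exact hTh0 v hvY
            · exact hTh1 v hvY hv
          rw [h6, mul_zero, mul_zero]
      · refine ⟨z, Finset.mem_univ _, ?_⟩
        have e6 : s * sg (β z) * (sg (β z) * Th S E e l z) =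
            sg (β z) * sg (β z) * (s * Th S E e l z) := by ring
        rw [e6, sg_mul_self, one_mul]
        exact hTz
    rw [← Finset.mul_sum, hinv, mul_zero] at h5
    exact lt_irrefl _ h5
  obtain ⟨a, ha, _, ha2⟩ := Zc_ne hne0
  rw [add_zero] at ha2
  exact ⟨hβ, a, ha2, ha⟩

/-- a sharp functional outside a block of type `T` has zeros in `Y` -/
theorem Shp.meet [Finite V] (he : S.e = 0) (T : TB S E η) {l : Dl V} (hl : Shp S l) (hn : l ∉ E) :
    ∃ h ∈ An E, PP S l h := by
  have hE := T.per
  obtain ⟨x0, hx0⟩ := hl.2.1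
  obtain ⟨b1, _, hB1⟩ := (meet_iff hE l x0).1 (meet_self hx0)
  by_cases hB0 : BB S E l 0
  · obtain ⟨h, hh, hP⟩ := hB0.2
    rw [add_zero] at hP
    exact ⟨h, hh, hP⟩
  · exfalso
    have hu : ∀ b, BB S E l b → b = b1 := by
      intro b hb
      by_contra hne
      exact hB0 (two_all he T hb hB1 hne E.zero_mem)
    have h1 : ∀ x, PP S l x → b1 x = 0 := by
      intro x hx
      obtain ⟨b, hb, hB⟩ := (meet_iff hE l x).1 (meet_self hx)
      rw [hu b hB] at hb
      exact Uz_ker he hb
    have h2 : b1 ∈ El S l := by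
      intro x y hx hy
      rw [map_add, h1 x hx, h1 y hy, add_zero]
    rcases hl.2.2 b1 h2 with h3 | h3
    · rw [h3] at hB1
      exact hB0 hB1
    · rw [h3] at hB1
      exact hn hB1.1

/-- **Theorem NA** -/
theorem no_arrow [Finite V] (he : S.e = 0) {l g : Dl V} (hl : Shp S l) (hlr : ¬ Rtwo S l)
    (hg : g ≠ 0) (hgr : Rtwo S g) : ¬ Arr S l g := by
  intro h
  obtain ⟨th, t1, t2, t3⟩ := hgr
  obtain ⟨E, η, T, hgE, _⟩ := colorS he hg t1 t2 t3
  have hsw : ∀ a b : Dl V, ETCO.wd a b = ETCO.wd b a := by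
    intro a b
    unfold ETCO.wd
    rw [add_comm]
  have hn : l ∉ E := by
    intro hlE
    apply hlr
    by_cases e : l = η
    · obtain ⟨θ, h1, h2, h3⟩ := T.two
      exact ⟨θ, h2, by rw [e]; exact h3, by rw [e]; exact T.wd θ h1⟩
    · exact ⟨η, T.ne, Ne.symm e, by rw [hsw]; exact T.wd l hlE⟩
  obtain ⟨y, hy, hP⟩ := hl.meet he T hn
  exact T.per.ne_of_mem hgE hg hy (h y hP (mem_An.1 hy g hgE))

/-- every sharp functional without form of rank two has a strict arrow -/
def ArrowLaw (S : QData V Q) : Prop :=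
  ∀ l, Shp S l → ¬ Rtwo S l → ∃ g, g ≠ 0 ∧ g ≠ l ∧ Arr S l g ∧
    ∃ x, l x = 0 ∧ ¬ PP S l x ∧ PP S g x

/-- **the arrow law implies that every sharp functional has a form of rank two** -/
theorem srs_of_arrows [Finite V] (he : S.e = 0) (hA : ArrowLaw S) : SRS S := by
  classical
  have := Fintype.ofFinite V
  have hf := finite_Dl (V := V)
  intro l hl0 hlx hlc
  by_contra hbad
  obtain ⟨b, ⟨hb, hbr⟩, hmax⟩ := Set.exists_max_image
    {b : Dl V | Shp S b ∧ ¬ Rtwo S b} (fun b => mass S b)
    (Set.toFinite _) ⟨l, ⟨hl0, hlx, hlc⟩, hbad⟩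
  obtain ⟨g, g1, g2, g3, g4⟩ := hA b hb hbr
  have h1 := g3.shp he hb g1 g2
  have h2 := (g3.mass_le he).2 g4
  have h3 : Rtwo S g := by
    by_contra h4
    exact absurd (hmax g ⟨h1, h4⟩) (not_le.2 h2)
  exact no_arrow he hb hbr g1 h3 g3

end Pool.Agent.H34E
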