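import Pool.Agent.H34D.Cr
import Pool.Agent.H34B.Grp3
import Pool.Agent.H34E.Na

/-!
# The arrow door
-/

set_option autoImplicit false
set_option linter.unusedSectionVars false
set_option linter.unusedVariables false

namespace Pool.Agent.H34E

open QS
open Pool.Agent.Helper58.PLine (QData)
open Pool.Agent.ETCP
open Pool.Agent.ETSC
open Pool.Agent.H34B
open Pool.Agent.H34C
open Pool.Agent.H34D
open Pool.Agent.ETCO (SR ZSet)

section lin

variable {V Q : Type} [AddCommGroup V] [Module (ZMod 2) V]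

/-- sharp functionals without form of rank two, of maximal mass -/
def Top [Fintype V] (S : QData V Q) (l : Dl V) : Prop :=
  Shp S l ∧ ¬ Rtwo S l ∧ ∀ b, Shp S b → ¬ Rtwo S b → mass S b ≤ mass S l

/-- the arrow law for the heaviest functionals without form of rank two -/
theorem srs_of_top [Fintype V] {S : QData V Q} (he : S.e = 0)
    (hA : ∀ l, Top S l → ∃ g, g ≠ 0 ∧ g ≠ l ∧ Arr S l g ∧
      ∃ x, l x = 0 ∧ ¬ PP S l x ∧ PP S g x) : SRS S := by
  classical
  have hf := finite_Dl (V := V)
  intro l hl0 hlx hlc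
  by_contra hbad
  obtain ⟨b, ⟨hb, hbr⟩, hmax⟩ := Set.exists_max_image
    {b : Dl V | Shp S b ∧ ¬ Rtwo S b} (fun b => mass S b)
    (Set.toFinite _) ⟨l, ⟨hl0, hlx, hlc⟩, hbad⟩
  obtain ⟨g, g1, g2, g3, g4⟩ := hA b ⟨hb, hbr, fun c hc hcr => hmax c ⟨hc, hcr⟩⟩
  have h1 := g3.shp he hb g1 g2
  have h2 := (g3.mass_le he).2 g4
  have h3 : Rtwo S g := by
    by_contra h4
    exact absurd (hmax g ⟨h1, h4⟩) (not_le.2 h2)
  exact no_arrow he hb hbr g1 h3 g3

end lin

attribute [local instance] Pool.Agent.ESL.J1X.mdl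

variable {S : QStruct}

/-- sharp functionals are the functionals with sharp kernel -/
theorem sharp_of_shp {l : Dl (Additive S.G)} (h : Shp (dt S) l) : Sharp S (kerG S l) := by
  obtain ⟨hl, ⟨x, hP⟩, hcl⟩ := h
  refine ⟨index_kerG S hl, ⟨x.toMul, hP⟩, ?_⟩
  by_contra hn
  obtain ⟨h, hh, hhn⟩ := SetLike.not_le_iff_exists.1 hn
  let K := Subgroup.closure {z | ∃ x ∈ PSet S (kerG S l), ∃ y ∈ PSet S (kerG S l), x * y = z}
  obtain ⟨μ, hμ, hμ1⟩ := ESL.exists_sep (W := toSub S K) (x := Additive.ofMul h) hhn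
  have hc : μ ∈ H34C.El (dt S) l := by
    intro a b ha hb
    apply hμ (a + b)
    have h3 : a.toMul * b.toMul ∈ K := Subgroup.subset_closure ⟨a.toMul, ha, b.toMul, hb, rfl⟩
    exact h3
  rcases hcl μ hc with rfl | rfl
  · exact zero_ne_one hμ1
  · rw [mem_kerG, hμ1] at hh
    exact one_ne_zero hh

/-- sharp functionals are the functionals with sharp kernel -/
theorem shp_of_sharp {l : Dl (Additive S.G)} (hl : l ≠ 0) (h : Sharp S (kerG S l)) :
    Shp (dt S) l := by
  obtain ⟨h1, ⟨x, hx⟩, h3⟩ := h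
  refine ⟨hl, ⟨Additive.ofMul x, hx⟩, ?_⟩
  intro c hc
  have h4 : kerG S l ≤ kerG S c := by
    refine h3.trans ?_
    rw [Subgroup.closure_le]
    rintro z ⟨a, ha, b, hb, rfl⟩
    exact hc (Additive.ofMul a) (Additive.ofMul b) ha hb
  by_cases hc0 : c = 0
  · exact Or.inl hc0
  · right
    by_contra hcl
    obtain ⟨w, w1, w2⟩ := ex_10 hc0 (fun e : l = c => hcl e.symm)
    have h5 : w.toMul ∈ kerG S c := h4 w2
    have h6 : c w = 0 := h5
    rw [w1] at h6
    exact one_ne_zero h6

/-- forms of rank two and the closure of `ZSet` -/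
theorem closure_of_not_rtwo [Finite S.G] (hneg : S.neg = 1) {l : Dl (Additive S.G)}
    (h : ¬ Rtwo (dt S) l) : Subgroup.closure (ZSet S (kerG S l)) = kerG S l := by
  by_contra hne
  apply h
  obtain ⟨h, hh, hhn⟩ : ∃ h ∈ kerG S l, h ∉ Subgroup.closure (ZSet S (kerG S l)) := by
    by_contra hc
    push Not at hc
    exact hne (le_antisymm ETCO.ZSet_le hc)
  let K := Subgroup.closure (ZSet S (kerG S l))
  obtain ⟨th, ht, ht1⟩ := ESL.exists_sep (W := toSub S K) (x := Additive.ofMul h) hhn
  refine ⟨th, ?_, ?_, ?_⟩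
  · rintro rfl
    exact zero_ne_one ht1
  · rintro rfl
    rw [mem_kerG, ht1] at hh
    exact one_ne_zero hh
  · have h1 : ∀ x v, ETCP.C (dt S) x v → l x = 0 → l v = 1 → th x = 0 := by
      intro x v hv h0 h1
      by_cases hx0 : x = 0
      · rw [hx0, map_zero]
      · apply ht x
        have h2 : x.toMul ∈ K := by
          refine Subgroup.subset_closure ⟨h0, hx0, v.toMul, ?_, hv⟩
          rw [mem_kerG]
          intro h3
          have h4 : l v = 0 := h3
          rw [h1] at h4
          exact one_ne_zero h4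
        exact h2
    intro x v hv
    rw [ETCO.wd_apply]
    have hself : ETCP.C (dt S) v v := ETCP.C.self (dt_e S hneg) v
    rcases ETSC.z2 (l x) with a | a <;> rcases ETSC.z2 (l v) with b | b
    · rw [a, b, zero_mul, mul_zero, add_zero]
    · rw [a, b, h1 x v hv a b, zero_mul, zero_mul, add_zero]
    · rw [a, b, h1 v x hv.symm b a, mul_zero, mul_zero, add_zero]
    · have h3 := h1 (x + v) v (ETCP.C.add' hv hself) (by rw [map_add, a, b]; decide) b
      rw [map_add] at h3
      rw [a, b, one_mul, mul_one, add_comm]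
      exact h3

/-- a form of rank two bounds the closure of `ZSet` -/
theorem closure_ne_of_rtwo (hneg : S.neg = 1) {l : Dl (Additive S.G)} (hl : l ≠ 0)
    (h : Rtwo (dt S) l) : Subgroup.closure (ZSet S (kerG S l)) ≠ kerG S l := by
  obtain ⟨th, h1, h2, h3⟩ := h
  intro e
  have h4 : kerG S l ≤ kerG S th := by
    rw [← e, Subgroup.closure_le]
    rintro x ⟨hx, -, y, hy, hxy⟩
    have h5 := h3 (Additive.ofMul x) (Additive.ofMul y) hxy
    have hx' : l (Additive.ofMul x) = 0 := hx
    have hy' : l (Additive.ofMul y) = 1 := by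
      rcases ETSC.z2 (l (Additive.ofMul y)) with a | a
      · exact absurd a hy
      · exact a
    rw [ETCO.wd_apply, hx', hy'] at h5
    have h6 : th (Additive.ofMul x) = 0 := by
      simpa using h5
    exact h6
  obtain ⟨w, w1, w2⟩ := ex_10 h1 (fun e : l = th => h2 e.symm)
  have h5 : w.toMul ∈ kerG S th := h4 w2
  have h6 : th w = 0 := h5
  rw [w1] at h6
  exact one_ne_zero h6

/-- the condition `SR` from its form for functionals -/
theorem sr_of_srs (hneg : S.neg = 1) (h : SRS (dt S)) : SR S := by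
  intro H hH
  obtain ⟨l, hl, rfl⟩ := exists_functional (S := S) H hH.1
  obtain ⟨a, b, c⟩ := shp_of_sharp hl hH
  exact closure_ne_of_rtwo hneg hl (h l a b c)

/-- **the arrow law**: from every sharp subgroup `H` which is generated by its `ZSet` there is a
strict arrow to another subgroup of index two -/
def StrictArrows (S : QStruct) : Prop :=
  ∀ H : Subgroup S.G, Sharp S H → Subgroup.closure (ZSet S H) = H →
    ∃ H' : Subgroup S.G, H'.index = 2 ∧ H' ≠ H ∧ (∀ x ∈ PSet S H, x ∈ H' → x ∈ PSet S H') ∧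
      ∃ x ∈ H, x ∉ PSet S H ∧ x ∈ PSet S H'

theorem arrowLaw_of_strict [Finite S.G] (hneg : S.neg = 1) (h : StrictArrows S) :
    ArrowLaw (dt S) := by
  intro l hl hr
  obtain ⟨H', h1, h2, h3, x, h4, h5, h6⟩ :=
    h _ (sharp_of_shp hl) (closure_of_not_rtwo hneg hr)
  obtain ⟨g, hg, rfl⟩ := exists_functional (S := S) H' h1
  refine ⟨g, hg, ?_, ?_, Additive.ofMul x, h4, h5, h6⟩
  · rintro rfl
    exact h2 rfl
  · intro y hy hgy
    exact h3 y.toMul hy hgy

/-- the arrow law implies `SR` -/
theorem sr_of_arrows (hf : Finite S.G) (hneg : S.neg = 1) (h : StrictArrows S) : SR S := by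
  have hf' : Finite (Additive S.G) := hf
  exact sr_of_srs hneg (srs_of_arrows (dt_e S hneg) (arrowLaw_of_strict hneg h))

/-- **the arrow law is equivalent to the decomposition into local types and extensions** -/
theorem locE_iff_arrows (hf : Finite S.G) (hneg : S.neg = 1) :
    LocE S ↔ StrictArrows S := by
  constructor
  · intro h H hH hc
    exact absurd hc (h.conv.2.2 H hH)
  · intro h
    exact locE_of_sr _ _ rfl hf hneg (sr_of_arrows hf hneg h)

/-- the conjecture for structures with `-1 = 1` and the arrow law -/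
theorem etc_iff_arrows : (∀ S : QStruct, Finite S.G → S.neg = 1 → ElemType S) ↔
    ∀ S : QStruct, Finite S.G → S.neg = 1 → StrictArrows S := by
  rw [cor3]
  constructor
  · intro h S hf hneg H hH hc
    exact absurd hc (h S hf hneg H hH)
  · intro h S hf hneg
    exact sr_of_arrows hf hneg (h S hf hneg)

end Pool.Agent.H34E
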