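import Pool.Agent.H34E.Door

/-!
# Minimal counterexamples
-/

set_option autoImplicit false
set_option linter.unusedSectionVars false
set_option linter.unusedVariables false

namespace Pool.Agent.H34E

open QS
open Pool.Agent.Helper58.PLine (QData)
open Pool.Agent.ETCP
open Pool.Agent.ETSC
open Pool.Agent.H34B
open Pool.Agent.H34C
open Pool.Agent.H34D
open Pool.Agent.ETCO (SR ZSet)

attribute [local instance] Pool.Agent.ESL.J1X.mdl

/-- all smaller structures are of elementary type -/
def MinE (S : QStruct) : Prop :=
  ∀ T : QStruct, Finite T.G → T.neg = 1 → Nat.card T.G < Nat.card S.G → ElemType T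

theorem elem_of_min {S : QStruct} (hf : Finite S.G) (hneg : S.neg = 1) (hmin : MinE S)
    (h : LocE S) : ElemType S := by
  rw [REG10.elem_iff_hregR S hf hneg]
  intro U hU
  by_cases hU' : U = ⊤
  · subst hU'
    exact (REG10.regE_iff S).1 h.regE
  · have h3 : Finite (ESL.PRODRECX.sub S hneg U hU.lsub).G := (inferInstance : Finite U)
    have hlt : Nat.card (ESL.PRODRECX.sub S hneg U hU.lsub).G < Nat.card S.G := by
      show Nat.card U < Nat.card S.G
      refine lt_of_le_of_ne (Subgroup.card_le_card_group U) ?_
      intro e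
      exact hU' (Subgroup.eq_top_of_card_eq U e)
    have h4 := locE_of_elem (hmin _ h3 rfl hlt) rfl
    obtain ⟨x, hx⟩ := h4.regE
    let x' : U := x
    refine ⟨x'.1, x'.2, ?_⟩
    intro w hw hxw v hv
    obtain ⟨z, hz⟩ := hx (⟨w, hw⟩ : U) (⟨v, hv⟩ : U) (Subtype.ext hxw)
    let z' : U := z
    exact ⟨z'.1, z'.2, congrArg Subtype.val hz⟩

/-- **minimal structures**: it is enough to prove the law for structures all whose smaller
structures are of elementary type -/
theorem etc_of_min
    (h : ∀ S : QStruct, Finite S.G → S.neg = 1 → MinE S → SR S) :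
    ∀ S : QStruct, Finite S.G → S.neg = 1 → ElemType S := by
  have key : ∀ (n : ℕ) (S : QStruct), Nat.card S.G = n → Finite S.G → S.neg = 1 →
      ElemType S := by
    intro n
    induction n using Nat.strong_induction_on with
    | _ n ih =>
      intro S hn hf hneg
      have hmin : MinE S := by
        intro T hTf hTn hlt
        exact ih _ (hn ▸ hlt) T rfl hTf hTn
      exact elem_of_min hf hneg hmin (locE_of_sr _ _ rfl hf hneg (h S hf hneg hmin))
  intro S hf hneg
  exact key _ S rfl hf hneg

/-- **the arrow law for the heaviest sharp functionals without form of rank two of minimal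
structures implies the conjecture for `-1 = 1`** -/
theorem etc_of_top
    (h : ∀ (S : QStruct) (_ : Finite S.G) (_ : S.neg = 1) (_ : MinE S)
      (_ : Fintype (Additive S.G)) (l : Dl (Additive S.G)), Top (dt S) l →
      ∃ g, g ≠ 0 ∧ g ≠ l ∧ Arr (dt S) l g ∧
      ∃ x, l x = 0 ∧ ¬ PP (dt S) l x ∧ PP (dt S) g x) :
    ∀ S : QStruct, Finite S.G → S.neg = 1 → ElemType S := by
  apply etc_of_min
  intro S hf hneg hmin
  have hf' : Finite (Additive S.G) := hf
  have := Fintype.ofFinite (Additive S.G)
  exact sr_of_srs hneg (srs_of_top (dt_e S hneg) (h S hf hneg hmin inferInstance))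

end Pool.Agent.H34E
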