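import Pool.Agent.H34D.Dg

/-!
Reciprocity for the kernel `[q (t, v) has the slot y]`, and arrows between functionals.
-/

set_option autoImplicit false
set_option linter.unusedSectionVars false
set_option linter.unusedVariables false

namespace Pool.Agent.H34E

open QS
open Pool.Agent.Helper58.PLine (QData)
open Pool.Agent.ETCP
open Pool.Agent.ETSC
open Pool.Agent.H34C
open Pool.Agent.H34D

variable {V Q : Type} [AddCommGroup V] [Module (ZMod 2) V] {S : QData V Q}

/-- `q (t, v)` has the slot `y` -/
def NQ (S : QData V Q) (y t v : V) : Prop := ∃ g, S.q t v = S.q y g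

theorem NQ.symm {y t v : V} (h : NQ S y t v) : NQ S y v t := by
  obtain ⟨g, hg⟩ := h
  exact ⟨g, by rw [S.symm, hg]⟩

theorem NQ.ex {y t v : V} (h : NQ S y t v) : ∃ u, C S (t + y) u ∧ C S t (v + u) := by
  obtain ⟨g, hg⟩ := h
  obtain ⟨u, h1, h2⟩ := S.link t v y g hg
  exact ⟨u, q_eq'_iff.1 (by rw [← h1, hg, h2]), q_eq_iff.1 h1⟩

theorem NQ.of {y t v u : V} (h1 : C S (t + y) u) (h2 : C S t (v + u)) : NQ S y t v :=
  ⟨u, (q_eq_iff.2 h2).trans (q_eq'_iff.2 h1)⟩

theorem NQ.add {y t v v' : V} (h : NQ S y t v) (h' : NQ S y t v') : NQ S y t (v + v') := by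
  obtain ⟨u, h1, h2⟩ := h.ex
  obtain ⟨u', h3, h4⟩ := h'.ex
  refine NQ.of (C.add h1 h3) ?_
  exact (C.add h2 h4).of_eq rfl (by rw [add_add_add_comm])

theorem NQ.left {y t v : V} (h : C S t v) : NQ S y t v :=
  NQ.of (u := 0) (S.q_zero _) (by rw [add_zero]; exact h)

theorem NQ.right {y t v : V} (h : C S (t + y) v) : NQ S y t v :=
  NQ.of h (by rw [ZModModule.add_self]; exact S.q_zero _)

section sums

variable [Fintype V]

open Classical in
/-- the number of the `v` such that `q (t, v)` has the slot `y` -/
noncomputable def nN (S : QData V Q) (y t : V) : ℤ := ∑ v : V, if NQ S y t v then 1 else 0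

theorem nN_pos (y t : V) : 0 < nN S y t := by
  classical
  unfold nN
  apply Finset.sum_pos'
  · intro v _
    split_ifs <;> norm_num
  · refine ⟨0, Finset.mem_univ _, ?_⟩
    rw [if_pos (NQ.left (S.q_zero t))]
    norm_num

open Classical in
theorem sum_NQ (y t : V) (α : Dl V) : ∑ v : V, (if NQ S y t v then sg (α v) else 0) =
    if PP S α t ∧ PP S α (t + y) then nN S y t else 0 := by
  by_cases h : PP S α t ∧ PP S α (t + y)
  · rw [if_pos h, nN]
    apply Finset.sum_congr rfl
    intro v _
    by_cases hv : NQ S y t v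
    · obtain ⟨u, h1, h2⟩ := hv.ex
      have e : α v = 0 := by
        have a1 := h.1 _ h2
        rw [map_add, h.2 _ h1, add_zero] at a1
        exact a1
      rw [if_pos hv, if_pos hv, e, sg_zero]
    · rw [if_neg hv, if_neg hv]
  · rw [if_neg h]
    obtain ⟨k, hk, hk1⟩ : ∃ k, NQ S y t k ∧ α k = 1 := by
      by_contra hc
      push Not at hc
      apply h
      constructor
      · intro v hv
        exact (z2 (α v)).resolve_right (hc v (NQ.left hv))
      · intro v hv
        exact (z2 (α v)).resolve_right (hc v (NQ.right hv))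
    set T : ℤ := ∑ v : V, (if NQ S y t v then sg (α v) else 0) with hT
    have h5 : T = -T := by
      conv_lhs => rw [hT]
      rw [← Equiv.sum_comp (Equiv.addRight k), hT, ← Finset.sum_neg_distrib]
      apply Finset.sum_congr rfl
      intro v _
      show (if NQ S y t (v + k) then sg (α (v + k)) else 0) = -(if NQ S y t v then sg (α v) else 0)
      have e : NQ S y t (v + k) ↔ NQ S y t v := by
        constructor
        · intro h'
          have h'' := h'.add hk
          rw [add_self'] at h''
          exact h''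
        · intro h'
          exact h'.add hk
      by_cases hv : NQ S y t v
      · rw [if_pos (e.2 hv), if_pos hv, map_add, hk1, sg_add, sg_one, mul_neg_one]
      · rw [if_neg (fun h' => hv (e.1 h')), if_neg hv, neg_zero]
    omega

open Classical in
/-- **reciprocity** -/
theorem recip (y : V) (α β : Dl V) :
    ∑ t : V, (if PP S α t ∧ PP S α (t + y) then nN S y t * sg (β t) else 0) =
      ∑ t : V, (if PP S β t ∧ PP S β (t + y) then nN S y t * sg (α t) else 0) := by
  have e : ∀ α β : Dl V,
      ∑ t : V, (if PP S α t ∧ PP S α (t + y) then nN S y t * sg (β t) else 0) =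
        ∑ t : V, ∑ v : V, if NQ S y t v then sg (α v) * sg (β t) else 0 := by
    intro α β
    apply Finset.sum_congr rfl
    intro t _
    have h := sum_NQ (S := S) y t α
    have e2 : ∑ v : V, (if NQ S y t v then sg (α v) * sg (β t) else 0) =
        (∑ v : V, if NQ S y t v then sg (α v) else 0) * sg (β t) := by
      rw [Finset.sum_mul]
      apply Finset.sum_congr rfl
      intro v _
      by_cases hv : NQ S y t v
      · rw [if_pos hv, if_pos hv]
      · rw [if_neg hv, if_neg hv, zero_mul]
    rw [e2, h]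
    by_cases hp : PP S α t ∧ PP S α (t + y)
    · rw [if_pos hp, if_pos hp]
    · rw [if_neg hp, if_neg hp, zero_mul]
  rw [e α β, e β α, Finset.sum_comm]
  apply Finset.sum_congr rfl
  intro t _
  apply Finset.sum_congr rfl
  intro v _
  by_cases hv : NQ S y t v
  · rw [if_pos hv, if_pos hv.symm, mul_comm]
  · rw [if_neg hv, if_neg (fun h => hv h.symm)]

end sums

/-- a pair of `P_l` with difference `y` on which `μ = 1` gives one on which `μ = 0`, or a pair of
`P_μ` with difference `y` -/
theorem recip_ex [Finite V] {y a : V} {l μ : Dl V} (h1 : PP S l a) (h2 : PP S l (a + y))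
    (hμ : μ a = 1) : (∃ b, PP S l b ∧ PP S l (b + y) ∧ μ b = 0) ∨
      ∃ b, PP S μ b ∧ PP S μ (b + y) := by
  classical
  have := Fintype.ofFinite V
  by_contra hc
  push Not at hc
  obtain ⟨hc1, hc2⟩ := hc
  have h := recip (S := S) y l μ
  have e2 : ∑ t : V, (if PP S μ t ∧ PP S μ (t + y) then nN S y t * sg (l t) else 0) = 0 := by
    apply Finset.sum_eq_zero
    intro t _
    exact if_neg fun h' => hc2 t h'.1 h'.2
  rw [e2] at h
  have e1 : 0 < ∑ t : V, -(if PP S l t ∧ PP S l (t + y) then nN S y t * sg (μ t) else 0) := by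
    apply Finset.sum_pos'
    · intro t _
      by_cases ht : PP S l t ∧ PP S l (t + y)
      · have h3 : μ t = 1 := z2ne (hc1 t ht.1 ht.2)
        rw [if_pos ht, h3, sg_one]
        have := nN_pos (S := S) y t
        linarith
      · rw [if_neg ht, neg_zero]
    · refine ⟨a, Finset.mem_univ _, ?_⟩
      rw [if_pos ⟨h1, h2⟩, hμ, sg_one]
      have := nN_pos (S := S) y a
      linarith
  rw [Finset.sum_neg_distrib, h] at e1
  exact lt_irrefl _ e1

/-- an arrow from `l` to `μ` -/
def Arr (S : QData V Q) (l μ : Dl V) : Prop := ∀ x, PP S l x → μ x = 0 → PP S μ x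

/-- sharp functionals -/
def Shp (S : QData V Q) (l : Dl V) : Prop :=
  l ≠ 0 ∧ (∃ x, PP S l x) ∧ ∀ c ∈ El S l, c = 0 ∨ c = l

/-- `l` is in the image of a form of rank two -/
def Rtwo (S : QData V Q) (l : Dl V) : Prop := ∃ th : Dl V, th ≠ 0 ∧ th ≠ l ∧ ETCO.wd l th ∈ R S

/-- an arrow does not lower the mass -/
theorem Arr.mass_le [Fintype V] (he : S.e = 0) {l μ : Dl V} (h : Arr S l μ) :
    mass S l ≤ mass S μ ∧ ((∃ x, l x = 0 ∧ ¬ PP S l x ∧ PP S μ x) → mass S l < mass S μ) := by
  classical
  have h1 : ∑ a : V, sg (μ a) * inn S S.z l a = ∑ a : V, sg (l a) * inn S S.z μ a := by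
    rw [← Ph_inn, ← Ph_inn, Ph_symm]
  have h2 : mass S μ - mass S l =
      ∑ a : V, ((1 + sg (l a)) * inn S S.z μ a - (1 + sg (μ a)) * inn S S.z l a) := by
    have e : ∀ a : V, (1 + sg (l a)) * inn S S.z μ a - (1 + sg (μ a)) * inn S S.z l a =
        inn S S.z μ a - inn S S.z l a +
          (sg (l a) * inn S S.z μ a - sg (μ a) * inn S S.z l a) := fun a => by ring
    rw [Finset.sum_congr rfl fun a _ => e a, Finset.sum_add_distrib, Finset.sum_sub_distrib,
      Finset.sum_sub_distrib, h1, sub_self, add_zero]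
    rfl
  have h3 : ∀ a ∈ (Finset.univ : Finset V),
      0 ≤ (1 + sg (l a)) * inn S S.z μ a - (1 + sg (μ a)) * inn S S.z l a := by
    intro a _
    have i1 := inn_z (S := S) μ a
    have i2 := inn_z (S := S) l a
    by_cases hl : PP S l a
    · rcases z2 (μ a) with e | e
      · have h4 := h a hl e
        have e1 : inn S S.z l a = inn S S.z μ a := by
          rw [inn_eq hl (S.q_zero a), inn_eq h4 (S.q_zero a), map_zero, map_zero]
        rw [PP_ker he hl, e, e1, sub_self]
      · rw [e, sg_one]
        rcases sg_cases (l a) with e2 | e2 <;> rw [e2] <;> linarith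
    · rw [inn_not hl, mul_zero, sub_zero]
      rcases sg_cases (l a) with e2 | e2 <;> rw [e2] <;> linarith
  constructor
  · have := Finset.sum_nonneg h3
    omega
  · rintro ⟨x, hx, hx1, hx2⟩
    have : 0 < ∑ a : V, ((1 + sg (l a)) * inn S S.z μ a - (1 + sg (μ a)) * inn S S.z l a) := by
      apply Finset.sum_pos' h3
      refine ⟨x, Finset.mem_univ _, ?_⟩
      rw [inn_not hx1, hx, sg_zero, mul_zero, sub_zero]
      have := inn_z_pos hx2
      linarith
    omega

/-- **Lemma AR**: an arrow from a sharp functional leads to a sharp functional -/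
theorem Arr.shp [Finite V] (he : S.e = 0) {l μ : Dl V} (hl : Shp S l) (h0 : μ ≠ 0) (hne : μ ≠ l)
    (h : Arr S l μ) : Shp S μ := by
  classical
  have := Fintype.ofFinite V
  -- `μ` takes both values on `P_l`
  have hμ : μ ∉ El S l := fun hc => (hl.2.2 μ hc).elim h0 hne
  obtain ⟨x0, y1, hx0, hy1, h00, h11⟩ : ∃ x y, PP S l x ∧ PP S l y ∧ μ x = 0 ∧ μ y = 1 := by
    by_contra hc
    apply hμ
    intro x y hx hy
    by_contra hxy
    rw [map_add] at hxy
    rcases z2 (μ x) with e | e
    · rw [e, zero_add] at hxy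
      exact hc ⟨x, y, hx, hy, e, z2ne hxy⟩
    · rcases z2 (μ y) with e' | e'
      · exact hc ⟨y, x, hy, hx, e', e⟩
      · rw [e, e'] at hxy
        exact hxy (by decide)
  have hx0' : PP S μ x0 := h x0 hx0 h00
  refine ⟨h0, ⟨x0, hx0'⟩, ?_⟩
  intro s hs
  by_contra hcon
  push Not at hcon
  obtain ⟨hs0, hsμ⟩ := hcon
  have hc : ∀ x, PP S μ x → s x = s x0 := El_const hs hx0'
  -- `s` is constant on the elements of `P_l` with `μ = 1`
  have key : ∀ y2, PP S l y2 → μ y2 = 1 → s y2 = s y1 := by
    intro y2 hy2 h2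
    by_contra hn
    have e : y1 + (y1 + y2) = y2 := by rw [← add_assoc, ZModModule.add_self, zero_add]
    have hsy : s (y1 + y2) = 1 := by
      rw [map_add]
      have f : ∀ a b : ZMod 2, b ≠ a → a + b = 1 := by decide
      exact f _ _ hn
    have hμy : μ (y1 + y2) = 0 := by rw [map_add, h11, h2]; decide
    rcases recip_ex (y := y1 + y2) hy1 (by rw [e]; exact hy2) h11 with ⟨b, b1, b2, b3⟩ | ⟨b, b1, b2⟩
    · have c1 := hc b (h b b1 b3)
      have c2 := hc _ (h _ b2 (by rw [map_add, b3, hμy, zero_add]))
      rw [map_add, c1, hsy] at c2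
      exact absurd c2 (by
        have f : ∀ a : ZMod 2, a + 1 ≠ a := by decide
        exact f _)
    · have c1 := hc b b1
      have c2 := hc _ b2
      rw [map_add, c1, hsy] at c2
      exact absurd c2 (by
        have f : ∀ a : ZMod 2, a + 1 ≠ a := by decide
        exact f _)
  -- so `s` or `s + μ` is constant on `P_l`, and `l` is constant on `P_μ`
  have hl2 : l ∈ El S μ := by
    rcases z2 (s y1 + s x0) with e | e
    · have h1 : s ∈ El S l := by
        have hcst : ∀ x, PP S l x → s x = s x0 := by
          intro x hx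
          rcases z2 (μ x) with e1 | e1
          · exact hc x (h x hx e1)
          · rw [key x hx e1]
            exact z2add e
        intro x y hx hy
        rw [map_add, hcst x hx, hcst y hy, ZModModule.add_self]
      rcases hl.2.2 s h1 with h2 | h2
      · exact absurd h2 hs0
      · rw [← h2]
        exact hs
    · have h1 : s + μ ∈ El S l := by
        have hcst : ∀ x, PP S l x → (s + μ) x = s x0 := by
          intro x hx
          rw [LinearMap.add_apply]
          rcases z2 (μ x) with e1 | e1
          · rw [hc x (h x hx e1), e1, add_zero]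
          · rw [key x hx e1, e1]
            have f : ∀ a b : ZMod 2, a + b = 1 → a + 1 = b := by decide
            exact f _ _ e
        intro x y hx hy
        rw [map_add, hcst x hx, hcst y hy, ZModModule.add_self]
      rcases hl.2.2 _ h1 with h2 | h2
      · exact absurd (eo h2) hsμ
      · rw [← h2]
        exact Submodule.add_mem _ hs (self_El he μ)
  have hl0 : ∀ x, PP S μ x → l x = 0 := by
    intro x hx
    rw [El_const hl2 hx0' x hx]
    exact PP_ker he hx0
  -- masses
  have h1 : ∑ a : V, sg (μ a) * inn S S.z l a = ∑ a : V, sg (l a) * inn S S.z μ a := by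
    rw [← Ph_inn, ← Ph_inn, Ph_symm]
  have h2 : ∑ a : V, sg (l a) * inn S S.z μ a = ∑ a : V, inn S S.z μ a := by
    apply Finset.sum_congr rfl
    intro a _
    by_cases ha : PP S μ a
    · rw [hl0 a ha, sg_zero, one_mul]
    · rw [inn_not ha, mul_zero]
  have h3 : ∑ a : V, sg (μ a) * inn S S.z l a < ∑ a : V, inn S S.z μ a := by
    apply Finset.sum_lt_sum
    · intro a _
      have i1 := inn_z (S := S) μ a
      have i2 := inn_z (S := S) l a
      rcases z2 (μ a) with e | e
      · rw [e, sg_zero, one_mul]
        by_cases ha : PP S l a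
        · rw [inn_eq ha (S.q_zero a), inn_eq (h a ha e) (S.q_zero a), map_zero, map_zero]
        · rw [inn_not ha]
          exact i1
      · rw [e, sg_one]
        linarith
    · refine ⟨y1, Finset.mem_univ _, ?_⟩
      have i1 := inn_z (S := S) μ y1
      have i2 := inn_z_pos hy1
      rw [h11, sg_one]
      linarith
  rw [h1, h2] at h3
  exact lt_irrefl _ h3

end Pool.Agent.H34E
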